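import Pool.Agent.H712R2.Continuum
import Pool.Agent.H712R2.Accessible

set_option autoImplicit false

open Pool.Agent.H712R2.Cremer

namespace Pool.Agent.Results.MP_44ec17_an.ContinuumManyComponents

/-- Let `α` be irrational (for instance a Cremer irrational), `λ = e^{2πiα}`, and let `z₁` be the
fixed point of `f_c(z) = z² + c` with multiplier `f_c'(z₁) = 2 z₁ = λ`. If `z₁` is accessible from
the basin of infinity, then `J_c ∖ {z₁}` has exactly continuum many connected components; in
particular the set of its components is uncountable. -/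
theorem result (α : ℝ) (hα : Irrational α) (c z₁ : ℂ) (hfix : z₁ ^ 2 + c = z₁)
    (hmult : 2 * z₁ = Complex.exp (2 * Real.pi * α * Complex.I)) (hacc : Accessible c z₁) :
    Cardinal.mk (ConnectedComponents ↥(JJ c \ {z₁})) = Cardinal.continuum := by
  obtain ⟨φ, hφ, t, ht⟩ := hacc
  have hnorm : ‖2 * z₁‖ = 1 := by
    rw [hmult]
    exact norm_ee α
  have hirr : ∀ q : ℕ, 1 ≤ q → (2 * z₁) ^ q ≠ 1 := by
    intro q hq h
    rw [hmult, ← Complex.exp_nat_mul, Complex.exp_eq_one_iff] at h
    obtain ⟨n, hn⟩ := h
    have h2 : (2 * Real.pi * Complex.I) * ((q:ℂ) * α - n) = 0 := by linear_combination hn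
    have h3 : (2 * (Real.pi:ℂ) * Complex.I) ≠ 0 := Complex.two_pi_I_ne_zero
    have h4 := (mul_eq_zero.mp h2).resolve_left h3
    have h5 : (((q * α - n : ℝ)) : ℂ) = 0 := by push_cast; exact h4
    have h6 : q * α - n = 0 := by exact_mod_cast h5
    have hq' : (q:ℝ) ≠ 0 := by positivity
    apply hα
    refine ⟨(n:ℚ) / q, ?_⟩
    push_cast
    field_simp
    linarith
  exact continuum_many hφ hfix hnorm hirr ht

end Pool.Agent.Results.MP_44ec17_an.ContinuumManyComponents
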